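import Pool.Agent.TU.K1
import Pool.Agent.TK.T2
import Pool.Agent.TK.T3

set_option autoImplicit false

open NumberField Ideal IsDedekindDomain ArithmeticFunction
open CM27 CMT GE TR TT TK
open scoped Classical

namespace TU

/-- [TU-K2] the induction over the number of square roots (as `TK.tower_aux`, `TK/T3.lean`, complete; `gen_or`, `adjoin_step`, `adjoin_self`, `bijective_of_adjoin_empty`) -/
theorem tower_aux (L : Type) [Field L] [NumberField L] (h0 : TP L L) :
    ∀ (n : ℕ) (K : Type) [Field K] [NumberField K] [Algebra L K] (e : Fin n → L) (s : Fin n → K),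
      (∀ i, DL L (e i)) → (∀ i, s i ^ 2 = algebraMap L K (e i)) →
      IntermediateField.adjoin L (Set.range s) = ⊤ → TP L K := by
  intro n
  induction n with
  | zero =>
    intro K _ _ _ e s _ _ htop
    have hr : Set.range s = ∅ := by
      ext z
      simp
    rw [hr] at htop
    exact h0.bij (bijective_of_adjoin_empty htop)
  | succ n ih =>
    intro K _ _ _ e s he hs htop
    set S₀ : Set K := Set.range (fun i : Fin n => s i.castSucc) with hS₀
    have hsub := IntermediateField.subset_adjoin L S₀
    let s' : Fin n → IntermediateField.adjoin L S₀ := fun i =>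
      ⟨s i.castSucc, hsub ⟨i, rfl⟩⟩
    have hset : {y : IntermediateField.adjoin L S₀ | (y : K) ∈ S₀} = Set.range s' := by
      ext y
      constructor
      · rintro ⟨i, hi⟩
        exact ⟨i, Subtype.ext hi⟩
      · rintro ⟨i, hi⟩
        exact ⟨i, congrArg Subtype.val hi⟩
    have htop' : IntermediateField.adjoin L (Set.range s') = ⊤ := by
      rw [← hset]
      exact adjoin_self S₀
    have hT := ih (IntermediateField.adjoin L S₀) (fun i => e i.castSucc) s'
      (fun i => he i.castSucc) (fun i => Subtype.ext (hs i.castSucc)) htop'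
    have hins : Set.range s = insert (s (Fin.last n)) S₀ := by
      ext z
      constructor
      · rintro ⟨i, rfl⟩
        induction i using Fin.lastCases with
        | last => exact Or.inl rfl
        | cast i => exact Or.inr ⟨i, rfl⟩
      · rintro (h | ⟨i, hi⟩)
        · exact ⟨Fin.last n, h.symm⟩
        · exact ⟨i.castSucc, hi⟩
    rw [hins] at htop
    have hstep := adjoin_step S₀ (s (Fin.last n)) htop
    rcases gen_or (IntermediateField.adjoin L S₀) K (s (Fin.last n))
      ⟨algebraMap L (IntermediateField.adjoin L S₀) (e (Fin.last n)), hs (Fin.last n)⟩ hstep with hb | ⟨h1, h2⟩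
    · exact hT.bij hb
    · let Q : QS (IntermediateField.adjoin L S₀) K :=
        { e := algebraMap L (IntermediateField.adjoin L S₀) (e (Fin.last n))
          s := s (Fin.last n)
          hs := hs (Fin.last n)
          gen := h2
          ns := h1 }
      exact hT.step Q (he (Fin.last n)) rfl

/-- [TU-K2] one more square root, of an element of `DP L`.
PROOF. `F = L(range s) ⊆ K`, `TP L F` (`tower_aux`), `K = F(x)` (`adjoin_step`), `gen_or`: `TP.bij` and `TP.tq`, or `TP.last`. -/
theorem tower_last (L : Type) [Field L] [NumberField L] (h0 : TP L L) (n : ℕ) (K : Type) [Field K]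
    [NumberField K] [Algebra L K] (e : Fin n → L) (s : Fin n → K) (he : ∀ i, DL L (e i))
    (hs : ∀ i, s i ^ 2 = algebraMap L K (e i)) (x : K) (a : L) (hx : x ^ 2 = algebraMap L K a)
    (ha : DP L a) (h : IntermediateField.adjoin L (insert x (Set.range s)) = ⊤) : TQ L K := by
  set S₀ : Set K := Set.range s with hS₀
  have hsub := IntermediateField.subset_adjoin L S₀
  let s' : Fin n → IntermediateField.adjoin L S₀ := fun i => ⟨s i, hsub ⟨i, rfl⟩⟩
  have hset : {y : IntermediateField.adjoin L S₀ | (y : K) ∈ S₀} = Set.range s' := by
    ext y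
    constructor
    · rintro ⟨i, hi⟩
      exact ⟨i, Subtype.ext hi⟩
    · rintro ⟨i, hi⟩
      exact ⟨i, congrArg Subtype.val hi⟩
  have htop' : IntermediateField.adjoin L (Set.range s') = ⊤ := by
    rw [← hset]
    exact adjoin_self S₀
  have hT := tower_aux L h0 n (IntermediateField.adjoin L S₀) e s' he (fun i => Subtype.ext (hs i)) htop'
  have hstep := adjoin_step S₀ x h
  rcases gen_or (IntermediateField.adjoin L S₀) K x
    ⟨algebraMap L (IntermediateField.adjoin L S₀) a, hx⟩ hstep with hb | ⟨h1, h2⟩
  · exact (hT.bij hb).tq
  · let Q : QS (IntermediateField.adjoin L S₀) K :=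
      { e := algebraMap L (IntermediateField.adjoin L S₀) a
        s := x
        hs := hx
        gen := h2
        ns := h1 }
    exact hT.last Q ha rfl

end TU
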