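import Pool.Agent.TU.G1

set_option autoImplicit false

open NumberField Ideal IsDedekindDomain
open scoped Classical

namespace TU

section
variable {L K : Type} [Field L] [NumberField L] [Field K] [NumberField K] [Algebra L K]
  {v : HeightOneSpectrum (𝓞 L)} {P : HeightOneSpectrum (𝓞 K)}

theorem k4b_exp_lt {x : WithZero (Multiplicative ℤ)} {m : ℤ} (h : x < WithZero.exp m) :
    x ≤ WithZero.exp (m - 1) := by
  rcases eq_or_ne x 0 with h0 | h0
  · rw [h0]; exact zero_le
  · rw [← WithZero.log_le_iff_le_exp h0]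
    have h1 := (WithZero.log_lt_iff_lt_exp h0).2 h
    omega

/-- residues are squares in characteristic `2` -/
theorem k4b_sqrt (v : HeightOneSpectrum (𝓞 L)) (h2 : (2 : 𝓞 L) ∈ v.asIdeal) {δ : L}
    (hδ : v.valuation L δ ≤ 1) : ∃ z : L, v.valuation L z ≤ 1 ∧ v.valuation L (δ - z ^ 2) < 1 := by
  obtain ⟨r, hr⟩ := v.exists_valuation_sub_lt_of_integer hδ 1
  rw [Units.val_one] at hr
  letI : Field (𝓞 L ⧸ v.asIdeal) := Ideal.Quotient.field v.asIdeal
  haveI : Finite (𝓞 L ⧸ v.asIdeal) := Ideal.finiteQuotientOfFreeOfNeBot v.asIdeal v.ne_bot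
  have hchar : ringChar (𝓞 L ⧸ v.asIdeal) = 2 := by
    haveI : CharP (𝓞 L ⧸ v.asIdeal) 2 := by
      apply CharTwo.of_one_ne_zero_of_two_eq_zero one_ne_zero
      have h3 : (Ideal.Quotient.mk v.asIdeal) 2 = 0 := Ideal.Quotient.eq_zero_iff_mem.2 h2
      rw [map_ofNat] at h3
      exact h3
    exact ringChar.eq _ 2
  obtain ⟨s, hs⟩ := FiniteField.isSquare_of_char_two hchar (Ideal.Quotient.mk v.asIdeal r)
  obtain ⟨s', rfl⟩ := Ideal.Quotient.mk_surjective s
  rw [← map_mul, Ideal.Quotient.mk_eq_mk_iff_sub_mem] at hs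
  refine ⟨algebraMap (𝓞 L) L s', v.valuation_le_one s', ?_⟩
  have h3 : v.valuation L (algebraMap (𝓞 L) L (r - s' * s')) < 1 := by
    rw [v.valuation_of_algebraMap, v.intValuation_lt_one_iff_mem]
    exact hs
  have h4 : δ - (algebraMap (𝓞 L) L s') ^ 2 =
      algebraMap (𝓞 L) L (r - s' * s') - (algebraMap (𝓞 L) L r - δ) := by
    rw [map_sub, map_mul]
    ring
  rw [h4]
  exact (v.valuation L).map_sub_lt h3 hr

/-- approximation of a square root -/
theorem k4b_step (hv : ∀ x : L, P.valuation K (algebraMap L K x) = v.valuation L x)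
    (h2 : (2 : 𝓞 L) ∈ v.asIdeal) {e : L} (he : v.valuation L e = 1) {x : K}
    (hx : x ^ 2 = algebraMap L K e) {ε : ℕ} (hε : v.valuation L 2 = WithZero.exp (-(ε : ℤ)))
    (m : ℕ) (hm : m ≤ 2 * ε) :
    ∃ y : L, v.valuation L y ≤ 1 ∧ v.valuation L (e - y ^ 2) ≤ WithZero.exp (-(m : ℤ)) := by
  induction m with
  | zero =>
    refine ⟨0, by simp, ?_⟩
    simp [he]
  | succ m ih =>
    obtain ⟨y, hy1, hy2⟩ := ih (by omega)
    by_cases hlt : v.valuation L (e - y ^ 2) < WithZero.exp (-(m : ℤ))
    · refine ⟨y, hy1, (k4b_exp_lt hlt).trans ?_⟩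
      rw [WithZero.exp_le_exp]
      omega
    have heq : v.valuation L (e - y ^ 2) = WithZero.exp (-(m : ℤ)) := le_antisymm hy2 (not_lt.1 hlt)
    rcases Nat.even_or_odd' m with ⟨a, ha | ha⟩
    · obtain ⟨π, hπ⟩ := v.valuation_exists_uniformizer L
      have hπ0 : π ≠ 0 := by
        rintro rfl
        rw [map_zero] at hπ
        exact WithZero.exp_ne_zero hπ.symm
      have hπa : ∀ k : ℕ, v.valuation L (π ^ k) = WithZero.exp (-(k : ℤ)) := by
        intro k
        rw [map_pow, hπ, ← WithZero.exp_nsmul]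
        congr 1
        simp
      have hδ : v.valuation L ((e - y ^ 2) / π ^ (2 * a)) ≤ 1 := by
        rw [map_div₀, heq, hπa, ha, div_self WithZero.exp_ne_zero]
      obtain ⟨z, hz1, hz2⟩ := k4b_sqrt v h2 hδ
      refine ⟨y + π ^ a * z, ?_, ?_⟩
      · refine (Valuation.map_add _ _ _).trans (max_le hy1 ?_)
        rw [map_mul]
        refine mul_le_one' ?_ hz1
        rw [hπa, ← WithZero.exp_zero, WithZero.exp_le_exp]
        omega
      · have h3 : e - (y + π ^ a * z) ^ 2 =
            π ^ (2 * a) * ((e - y ^ 2) / π ^ (2 * a) - z ^ 2) - 2 * (y * (π ^ a * z)) := by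
          have h4 : π ^ (2 * a) * ((e - y ^ 2) / π ^ (2 * a)) = e - y ^ 2 :=
            mul_div_cancel₀ _ (pow_ne_zero _ hπ0)
          rw [mul_sub, h4]
          ring
        rw [h3]
        refine (Valuation.map_sub _ _ _).trans (max_le ?_ ?_)
        · rw [map_mul, hπa]
          have h5 : v.valuation L ((e - y ^ 2) / π ^ (2 * a) - z ^ 2) ≤ WithZero.exp (0 - 1 : ℤ) := by
            apply k4b_exp_lt
            rw [WithZero.exp_zero]
            exact hz2
          calc WithZero.exp (-((2 * a : ℕ) : ℤ)) * v.valuation L ((e - y ^ 2) / π ^ (2 * a) - z ^ 2)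
              ≤ WithZero.exp (-((2 * a : ℕ) : ℤ)) * WithZero.exp (0 - 1 : ℤ) :=
                mul_le_mul_right h5 _
            _ = WithZero.exp (-((2 * a : ℕ) : ℤ) + (0 - 1)) := (WithZero.exp_add _ _).symm
            _ ≤ _ := by
              rw [WithZero.exp_le_exp]
              push_cast
              omega
        · rw [map_mul, map_mul, map_mul, hε, hπa]
          calc WithZero.exp (-(ε : ℤ)) * (v.valuation L y * (WithZero.exp (-(a : ℤ)) * v.valuation L z))
              ≤ WithZero.exp (-(ε : ℤ)) * (1 * (WithZero.exp (-(a : ℤ)) * 1)) := by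
                gcongr
            _ = WithZero.exp (-(ε : ℤ) + -(a : ℤ)) := by
              rw [one_mul, mul_one, ← WithZero.exp_add]
            _ ≤ _ := by
              rw [WithZero.exp_le_exp]
              push_cast
              omega
    · exfalso
      have hAB : P.valuation K (x - algebraMap L K y) * P.valuation K (x + algebraMap L K y) =
          WithZero.exp (-(m : ℤ)) := by
        rw [← map_mul, ← heq, ← hv]
        congr 1
        rw [map_sub, map_pow, ← hx]
        ring
      have h2y : P.valuation K ((x + algebraMap L K y) - (x - algebraMap L K y)) ≤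
          WithZero.exp (-(ε : ℤ)) := by
        have h3 : (x + algebraMap L K y) - (x - algebraMap L K y) = algebraMap L K (2 * y) := by
          rw [map_mul, map_ofNat]
          ring
        rw [h3, hv, map_mul, hε]
        exact mul_le_of_le_one_right' hy1
      have hA0 : P.valuation K (x - algebraMap L K y) ≠ 0 := left_ne_zero_of_mul (hAB ▸ WithZero.exp_ne_zero)
      have hB0 : P.valuation K (x + algebraMap L K y) ≠ 0 := right_ne_zero_of_mul (hAB ▸ WithZero.exp_ne_zero)
      have hlog : WithZero.log (P.valuation K (x - algebraMap L K y)) +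
          WithZero.log (P.valuation K (x + algebraMap L K y)) = -(m : ℤ) := by
        rw [← WithZero.log_mul hA0 hB0, hAB, WithZero.log_exp]
      rcases lt_trichotomy (P.valuation K (x - algebraMap L K y))
        (P.valuation K (x + algebraMap L K y)) with h | h | h
      · have h3 := Valuation.map_sub_eq_of_lt_left (v := P.valuation K) h
        rw [h3] at h2y
        have h4 := (WithZero.log_le_iff_le_exp hB0).2 h2y
        have h5 := (WithZero.log_le_iff_le_exp hA0).2 (h.le.trans h2y)
        omega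
      · rw [h] at hlog
        omega
      · have h3 := Valuation.map_sub_eq_of_lt_right (v := P.valuation K) h
        rw [h3] at h2y
        have h4 := (WithZero.log_le_iff_le_exp hA0).2 h2y
        have h5 := (WithZero.log_le_iff_le_exp hB0).2 (h.le.trans h2y)
        omega

/-- [TU-K4b] an element of `L` which is a square in `K` is `Ur` at the unramified primes.
PROOF. `v(e) = P(x)²`. `2 ∉ v`: `ur_iff_val`. `2 ∈ v`: `P(x)` is the valuation of an element of `L` (same value group: a uniformiser of `v`), so after dividing `x` by it `v(e) = 1`, `P(x) = 1`. Let `v(2) = exp (-ε)`. Claim: there is `y ∈ L` with `v(e - y²) ≤ exp (-2ε)`; then `v(y) = 1`, `c = (e - y²)/4`, `ur_of_val`.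
Otherwise choose `y ∈ L` with `v(y) ≤ 1` and `v(e - y²) = exp (-m)` minimal, `0 ≤ m < 2ε`, `δ = e - y²` (such `y` exists: `y = 1` gives `m ≥ 0`, and `m` is bounded by `2ε`). `m = 2a` even: `δ = π^(2a) δ'`, `v(π) = exp (-1)`, `v(δ') = 1`; the residue field `𝓞/v` is finite of characteristic `2`, so `δ' ≡ z²`: `e - (y + π^a z)² = π^(2a)(δ' - z²) - 2 y π^a z` has
valuation `< exp (-m)` as `a < ε`: contradiction. `m` odd: in `K`, `δ = (x - y)(x + y)`; let `P(x - y) = exp (-a)`, `P(x + y) = exp (-b)`, `a + b = m`, so `a ≠ b`, and `(x + y) - (x - y) = 2y` has valuation `exp (-min(a,b))`, so `min(a,b) ≥ ε` (`v(2y) ≤ exp (-ε)`), `m ≥ 2ε`: contradiction. -/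
theorem ur_of_sqrt (hv : ∀ x : L, P.valuation K (algebraMap L K x) = v.valuation L x) {e : L}
    (he : e ≠ 0) {x : K} (hx : x ^ 2 = algebraMap L K e) : Ur v e := by
  by_cases h2 : (2 : 𝓞 L) ∈ v.asIdeal
  swap
  · rw [ur_iff_val h2 he]
    refine ⟨P.valuation K x, ?_⟩
    rw [← hv, ← hx, map_pow, sq]
  have hx0 : x ≠ 0 := by
    rintro rfl
    rw [zero_pow two_ne_zero] at hx
    exact he ((map_eq_zero (algebraMap L K)).1 hx.symm)
  obtain ⟨z, hz⟩ := v.valuation_surjective L (P.valuation K x)
  have hz0 : z ≠ 0 := by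
    rintro rfl
    rw [map_zero] at hz
    exact hx0 ((map_eq_zero (P.valuation K)).1 hz.symm)
  have hve : v.valuation L (e / z ^ 2) = 1 := by
    rw [map_div₀, ← hv e, ← hx, map_pow, map_pow, hz, div_self]
    rw [← hz]
    exact pow_ne_zero _ ((Valuation.ne_zero_iff _).2 hz0)
  have hxe : (x / algebraMap L K z) ^ 2 = algebraMap L K (e / z ^ 2) := by
    rw [div_pow, hx, map_div₀, map_pow]
  have h20 : (2 : L) ≠ 0 := two_ne_zero
  have h21 : v.valuation L 2 < 1 := by
    have h3 : (2 : L) = algebraMap (𝓞 L) L 2 := (map_ofNat (algebraMap (𝓞 L) L) 2).symm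
    rw [h3, v.valuation_of_algebraMap, v.intValuation_lt_one_iff_mem]
    exact h2
  obtain ⟨ε, hε⟩ : ∃ ε : ℕ, v.valuation L 2 = WithZero.exp (-(ε : ℤ)) := by
    have h3 : v.valuation L 2 ≠ 0 := (Valuation.ne_zero_iff _).2 h20
    have h4 : WithZero.log (v.valuation L 2) < 0 := by
      rw [WithZero.log_lt_iff_lt_exp h3, WithZero.exp_zero]
      exact h21
    refine ⟨(-WithZero.log (v.valuation L 2)).toNat, ?_⟩
    rw [Int.toNat_of_nonneg (by omega), neg_neg, WithZero.exp_log h3]
  obtain ⟨y, hy1, hy2⟩ := k4b_step hv h2 hve hxe hε (2 * ε) le_rfl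
  have hv4 : v.valuation L 4 = WithZero.exp (-((2 * ε : ℕ) : ℤ)) := by
    have h3 : (4 : L) = 2 * 2 := by norm_num
    rw [h3, map_mul, hε, ← WithZero.exp_add]
    congr 1
    push_cast
    ring
  have h40 : (4 : L) ≠ 0 := by norm_num
  have hc : v.valuation L ((e / z ^ 2 - y ^ 2) / 4) ≤ 1 := by
    rw [map_div₀, hv4]
    exact div_le_one_of_le₀ hy2 zero_le
  have heq : e / z ^ 2 = y ^ 2 + 4 * ((e / z ^ 2 - y ^ 2) / 4) := by
    rw [mul_div_cancel₀ _ h40]
    ring
  have h5 := ur_of_val v hz0 hy1 hc (by rw [← heq]; exact hve)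
  rw [← heq, mul_div_cancel₀ _ (pow_ne_zero 2 hz0)] at h5
  exact h5

end

end TU
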